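import Pool.Agent.R898.HIM

/-!
# The two halves of Question 1, and what Question 2 implies

The setting: `𝒱` is a class of smooth projective varieties over a field (a number field in the
problem) which is closed under products, `C` stands for the Chow groups with rational coefficients,
`W` for the `ℓ`-adic cohomology, `ht` for the height pairing; `CH^m(X)_hom = homTriv W X m`. Of the
height pairing only this is used: it is biadditive, and the actions of a correspondence and of its
transpose are adjoint (`IsHeight`).

* `ArithLef W X D` is Question 1 and `HodgeIndex W ht X D` is Question 2 for `(X, D)`; `LefInj` and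
  `LefSurj` are the injectivity and the surjectivity of `D^(n+1-2i)` from `CH^i(X)_hom` to
  `CH^(n+1-i)(X)_hom`, for all `i ≤ (n+1)/2`, `n = dim X`.
* A *Lefschetz system* for `(X, D)` (`IsSystem`) is an `sl₂`-triple `(Δ_* D, ∑ (j - n) π_j, Λ)` of
  correspondences, the `π_j` being orthogonal idempotents with sum the diagonal. Such systems are known
  for abelian varieties and symmetric ample `D` (Deninger–Murre, Künnemann; `π_j` acts on `CH^m` as the
  projector to Beauville's `CH^m_(2m-j)`), for curves and `D` a multiple of a rational point, for
  hypersurfaces, for K3 surfaces (Beauville–Voisin), and for products of such pairs. `Good`: moreover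
  the standard conjecture of Lefschetz type holds (as in all these examples).

The theorem:

1. For each Lefschetz system of `(X, D)`: the injectivity in Question 1 is equivalent to
   `π_i CH^m(X)_hom = 0` for all `i ≥ 2m`, and the surjectivity is equivalent to
   `π_i CH^m(X)_hom = 0` for all `i ≤ 2m - 2`. For abelian varieties the first half is the vanishing
   conjecture of Beauville and Murre (`CH^m_(s) = 0` for `s < 0`, and `CH^m_(0)` injects into the
   cohomology), the second is `CH^m_(s) = 0` for `s ≥ 2`.
2. Question 2 for `(X, D)` implies the first of these vanishing statements. If Question 2 holds for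
   `(X, D)` then Question 1 holds for `(X, D)` if and only if the height pairing on `X` is
   nondegenerate.
3. Let `S` be a class of good pairs `(Z, D)`, closed under products, such that each `X` in `𝒱` is
   dominated by a `Z` (for example the products of curves, or of abelian varieties). If Question 2
   holds for the pairs in `S` then the following are equivalent: Question 1 for the pairs in `S`; the
   height pairing is nondegenerate on all `X` in `𝒱`; correspondences which vanish on `H^(2m-1)(X)`
   kill `CH^m(X)_hom`, for all `X` in `𝒱` (`F^2 = 0`); Question 1 for all `X` in `𝒱` and all `D`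
   which satisfy the standard conjecture of Lefschetz type.
-/

open Pool.Agent.H914 Pool.Agent.R903 Pool.Agent.R898.HL

universe u v w

/-- The halves of Question 1, and consequences of Question 2. -/
theorem Pool.Agent.Results.MP_e2c9e7_nt.HodgeIndexAndHalves.result {k : Type u} [Field k]
    {𝒱 : VarClass k} (C : ChowTheory.{u, v} 𝒱) (hPol : C.Polarized) (W : WeilTheory.{u, v, w} C)
    (ht : ∀ X : 𝒱.Obj, C.CH X → C.CH X → ℝ) (hht : IsHeight W ht) :
    (∀ (X : 𝒱.Obj) (D : C.CH X) (Λ : C.CH (X.prod X)) (π : ℕ → C.CH (X.prod X)),
        IsSystem C D Λ π → (LefInj W X D ↔ NoneAbove W X π) ∧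
          (LefSurj W X D ↔ NoneBelow W X π) ∧
          (HodgeIndex W ht X D → NoneAbove W X π ∧ (ArithLef W X D ↔ HeightNonDeg W ht X))) ∧
      ∀ S : ∀ X : 𝒱.Obj, C.CH X → Prop, IsClass W S → (∀ X D, S X D → HodgeIndex W ht X D) →
        [∀ X D, S X D → ArithLef W X D, ∀ X : 𝒱.Obj, HeightNonDeg W ht X,
          ∀ X Y : 𝒱.Obj, OnlyOdd W X Y,
          ∀ (X : 𝒱.Obj) (D : C.CH X), LefStd W X D → ArithLef W X D].TFAE :=
  ⟨fun _ _ _ _ h => ⟨lefInj_iff_noneAbove hPol h.memD h.toR,
    lefSurj_iff_noneBelow hPol h.memD h.toR, fun hQ =>
      ⟨(lefInj_iff_noneAbove hPol h.memD h.toR).1 (lefInj_of_hodgeIndex hht hQ),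
        arithLef_iff_nonDeg hPol hht h.memD h.toR hQ⟩⟩,
    fun _ hS hQ => equivalence_height hPol hht hS hQ⟩
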