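import Pool.Agent.R898.HLN

/-!
# Beilinson's arithmetic hard Lefschetz conjecture (Q1) is equivalent to `F^2 = 0`, and it does not
# depend on the polarization

The setting: `𝒱` is a class of smooth projective varieties over a field (a number field in the
problem) which is closed under products, `C` stands for the Chow groups with rational coefficients
and `W` for the `ℓ`-adic cohomology; `CH^m(X)_hom = homTriv W X m`.

* `ArithLef W X D` is Question 1 for `(X, D)`, `D` the class of an ample line bundle: the product
  with `D^(n+1-2i)` is an isomorphism `CH^i(X)_hom → CH^(n+1-i)(X)_hom`, for all `i ≤ (n+1)/2`,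
  `n = dim X`.
* A *Lefschetz system* for `(X, D)` (`IsSystem`) is an
  `sl₂`-triple `(L, ∑ (j - n) π_j, Λ)` of correspondences, `L = Δ_* D`, the `π_j` being orthogonal
  idempotents with sum the diagonal. Such systems are known for abelian varieties and symmetric ample
  `D` (Deninger–Murre, Künnemann; `π_j` acts on `CH^m` as the projector to Beauville's
  `CH^m_(2m-j)`), for curves and `D` a multiple of a class `o` with `Δ_* o = o × o` (a rational
  point), for hypersurfaces and the hyperplane class, for K3 surfaces and all ample `D`
  (by Beauville–Voisin), and for products of such pairs with the class `p_1^* D + p_2^* E`.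
* `Good W X D`: there is a Lefschetz system, and the standard conjecture of Lefschetz type holds (as
  it does in all the examples).
* `OnlyOdd W X Y`: correspondences from `X` to `Y` which vanish on `H^(2m-1)(X)` kill `CH^m(X)_hom`;
  this is the conjecture of Bloch and Beilinson for varieties over number fields, `F^2 = 0`.

The theorem:

1. For each Lefschetz system of `(X, D)`: Question 1 holds for `(X, D)` if and only if
   `π_i CH^m(X)_hom = 0` for all `m` and all `i ≠ 2m - 1`. So for an abelian variety Question 1 is
   equivalent to `CH^m_(s) ∩ CH^m_hom = 0` for `s ≠ 1`, and it does not depend on the symmetric ample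
   class.
2. If Question 1 holds for the good pairs `(X, D)`, `(Y, E)` and for `(X × Y, p_1^* D + p_2^* E)` then
   correspondences from `X` to `Y` which vanish on `H^(2m-1)(X)` kill `CH^m(X)_hom`.
3. If correspondences from `X` to `X` which vanish on `H^(2m-1)(X)` kill `CH^m(X)_hom` then
   Question 1 holds for `(X, D)` for all `D` which satisfy the standard conjecture of Lefschetz type.
4. Let `S` be a class of good pairs, closed under products, such that each `X` in `𝒱` is dominated by
   a `Z` with `(Z, D)` in `S` (for example `𝒱` consists of the varieties dominated by products of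
   curves or of abelian varieties, and `S` of these products). The following are equivalent: Question 1
   for the pairs in `S`; `OnlyOdd` (`F^2 = 0`) for all `X`, `Y` in `𝒱`; Question 1 for all `X` in `𝒱`
   and all `D` which satisfy the standard conjecture of Lefschetz type.

The idea: by the `sl₂`-triple the part of `CH^*(X)_hom` of Beauville type `s` is symmetric about the
codimension `(n + s)/2`, by Question 1 it is symmetric about `(n + 1)/2`.
-/

open Pool.Agent.H914 Pool.Agent.R903 Pool.Agent.R898.HL

universe u v w

/-- Question 1 for varieties with Lefschetz systems, and for the varieties dominated by them. -/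
theorem Pool.Agent.Results.MP_e2c9e7_nt.LefschetzEquivalence.result {k : Type u} [Field k]
    {𝒱 : VarClass k} (C : ChowTheory.{u, v} 𝒱) (hPol : C.Polarized) (W : WeilTheory.{u, v, w} C) :
    (∀ (X : 𝒱.Obj) (D : C.CH X) (Λ : C.CH (X.prod X)) (π : ℕ → C.CH (X.prod X)),
        IsSystem C D Λ π → (ArithLef W X D ↔ Concentrated W X π)) ∧
      (∀ (X Y : 𝒱.Obj) (D : C.CH X) (E : C.CH Y), Good W X D → Good W Y E → ArithLef W X D →
        ArithLef W Y E → ArithLef W (X.prod Y) (sumClass C D E) → OnlyOdd W X Y) ∧
      (∀ (X : 𝒱.Obj) (D : C.CH X), OnlyOdd W X X → LefStd W X D → ArithLef W X D) ∧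
      ∀ S : ∀ X : 𝒱.Obj, C.CH X → Prop, IsClass W S →
        [∀ X D, S X D → ArithLef W X D, ∀ X Y : 𝒱.Obj, OnlyOdd W X Y,
          ∀ (X : 𝒱.Obj) (D : C.CH X), LefStd W X D → ArithLef W X D].TFAE :=
  ⟨fun _ _ _ _ h => arithLef_iff_concentrated hPol h.memD h.toR,
    fun _ _ _ _ h1 h2 h3 h4 h5 => onlyOdd_of_arithLef hPol h1 h2 h3 h4 h5,
    fun _ _ h1 h2 => arithLef_of_onlyOdd hPol h1 h2, fun _ hS => equivalence hPol hS⟩
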