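import Pool.Agent.R898.PDM

/-!
# Beilinson's conjectures on height pairings: reduction to the middle dimension

The setting: `𝒱` is a class of smooth projective varieties over a field (a number field `K` in the
problem), closed under products, `C` stands for the Chow groups with rational coefficients, `W` for
the `ℓ`-adic cohomology, `ht` for the height pairing; `CH^m(X)_hom = homTriv W X m`. Of the height
pairing only this is used: it is biadditive, and the actions of a correspondence and of its transpose
are adjoint (`IsHeight`).

`S` is a class of pairs `(X, D)` of a variety and a divisor class, and `(P a, h a)` is for each `a` a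
variety of dimension `a` with a divisor class with `deg (h a)^a > 0`, such that `S` is closed under the
products with the `(P a, h a)` (`IsStable`). Example: the generic fibres of all regular arithmetic
varieties over the ring of integers of `K` with the first Chern classes of the ample line bundles, and
the projective spaces with the class of a hyperplane.

`LefInj`, `LefSurj`, `ArithLef`, `HodgeIndex` for `(X, D)`, `n = dim X`: for all `i ≤ (n+1)/2` the map
`D^(n+1-2i) : CH^i(X)_hom → CH^(n+1-i)(X)_hom` is injective, surjective, bijective (Question 1),
respectively `(-1)^i (x, D^(n+1-2i) x) > 0` for all nonzero `x` in `CH^i(X)_hom` with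
`D^(n+2-2i) x = 0` (Question 2).

The theorem: let `I` and `J` be arbitrary infinite sets of natural numbers.

1. The injectivity in Question 1 holds for all pairs in `S` and all `i` if and only if it holds for the
   pairs in `S` with `n = 2i`, `i ∈ I`: that is, `D : CH^i(X)_hom → CH^(i+1)(X)_hom` is injective.
2. The same for the surjectivity.
3. Question 2 holds for all pairs in `S` and all `i` if and only if it holds for the pairs in `S` with
   `n = 2i - 1`, `i ∈ J`: that is, `(-1)^i (x, x) > 0` for the nonzero `x` in `CH^i(X)_hom` with
   `D x = 0`.
4. Question 1 and Question 2 hold for all pairs in `S` if and only if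
   `D : CH^i(X)_hom → CH^(i+1)(X)_hom` is surjective for the pairs in `S` with `n = 2i`, `i ∈ I`, and
   Question 2 holds for the pairs in `S` with `n = 2i - 1`, `i ∈ J`.

The proof: no weak Lefschetz theorem is available for `CH_hom`, so that one cannot pass to hyperplane
sections. Instead one passes to products: if `D^(a+1) x = 0` and `ω = ∑ (-D)^l h^(a-l)` on
`X × P a`, then `(D + h) ω p^* x = 0`, and `(ω p^* x, ω p^* x) = (-1)^a (a + 1) deg(h^a) (x, D^a x)`.
-/

open Pool.Agent.H914 Pool.Agent.R903 Pool.Agent.R898.HL Pool.Agent.R898.PD

universe u v w

/-- Reduction of both questions to the middle dimension. -/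
theorem Pool.Agent.Results.MP_e2c9e7_nt.MiddleDimension.result {k : Type u} [Field k]
    {𝒱 : VarClass k} (C : ChowTheory.{u, v} 𝒱) (W : WeilTheory.{u, v, w} C)
    (ht : ∀ X : 𝒱.Obj, C.CH X → C.CH X → ℝ) (hht : IsHeight W ht)
    (S : ∀ X : 𝒱.Obj, C.CH X → Prop) (P : ℕ → 𝒱.Obj) (h : ∀ a, C.CH (P a))
    (hS : IsStable C S P h) (I J : Set ℕ) (hI : Unbounded I) (hJ : Unbounded J) :
    ((∀ X D, S X D → LefInj W X D) ↔ InjAt W S I) ∧
      ((∀ X D, S X D → LefSurj W X D) ↔ SurjAt W S I) ∧
      ((∀ X D, S X D → HodgeIndex W ht X D) ↔ PosAt W ht S J) ∧
      ((∀ X D, S X D → ArithLef W X D ∧ HodgeIndex W ht X D) ↔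
        SurjAt W S I ∧ PosAt W ht S J) :=
  main hht hS hI hJ
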