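import Pool.Agent.R368.Zero.Main

/-!
# The arithmetic Lefschetz conjecture in degree one and correspondences on zero-cycles

Let `𝒱` be a class of smooth projective varieties over a field `k` (a number field, in the problem)
which is closed under products, with Chow groups `C` (rational coefficients) and a Weil cohomology
theory `W`. Assume the known facts `HasOneCycleFacts`. The following are equivalent:

1. The case `i = 1` of Q1: for all `X` in `𝒱` of dimension `n > 0` and all divisor classes `D` for
   which the inverse of `D^(n-1) : H^1(X) → H^(2n-1)(X)` is algebraic (known for ample `D`), the map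
   `D^(n-1) : CH^1(X)_hom → CH^n(X)_hom` is bijective.
2. For all `X` this map is surjective for one such `D`.
3. For all `X`, correspondences in `CH^n(X × X)` which act as zero on `H^(2n-1)(X)` kill
   `CH^n(X)_hom`.
4. For all `X`, homologically trivial correspondences in `CH^n(X × X)` kill `CH^n(X)_hom`.
5. For all curves `Γ` and all `X`, correspondences in `CH^n(Γ × X)` which act as zero on `H^1(Γ)` kill
   `CH^1(Γ)_hom`.

They imply that all degree operators (classes `d` in `CH^n(X × X)` which act on each `H^j(X)` as
multiplication by `j`) act on `CH^n(X)_hom` as multiplication by `2n - 1`. The converse holds if the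
standard conjecture of Künneth type holds.
-/

open Pool.Agent.H914 Pool.Agent.R903 Pool.Agent.R368.Zero

universe u v w

namespace Pool.Agent.Results.MP_e2c9e7_nt.ZeroCycles

theorem result {k : Type u} [Field k] {𝒱 : VarClass k} {C : ChowTheory.{u, v} 𝒱}
    (W : WeilTheory.{u, v, w} C) (hF : HasOneCycleFacts W) :
    List.TFAE [AllArithLef W, SomeSurj W, AllWeight W, AllHomTrivial W, AllCurves W] ∧
    (AllWeight W → AllDegree W) ∧ (W.Kunneth → AllDegree W → AllHomTrivial W) :=
  ⟨zero_tfae hF, allDegree_of_allWeight, allHomTrivial_of_allDegree⟩

end Pool.Agent.Results.MP_e2c9e7_nt.ZeroCycles
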